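import Pool.Agent.helper96.S5.SpecR

set_option autoImplicit false

namespace S5

open PF

noncomputable section

open Classical

theorem CM2_typ (hLQM : LQM_stmt) (T : List (ℕ × ℕ × ℕ)) :
    Computable fun a : ℕ × List ℕ => typ T (fun i => ent a.2 i ≠ 0) a.1 := by
  have hq : Computable fun x : (ℕ × List ℕ) × ℕ => lq (fun i => ent x.1.2 i ≠ 0) x.2 :=
    hLQM.comp ((Computable.snd.comp Computable.fst).pair Computable.snd)
  have hk : Computable fun x : (ℕ × List ℕ) × ℕ => x.1.1 := Computable.fst.comp Computable.fst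
  have hQ : ComputablePred fun x : (ℕ × List ℕ) × ℕ =>
      lq (fun i => ent x.1.2 i ≠ 0) x.2 = x.1.1 := cp_eq hq hk
  have hQ2 : ComputablePred fun x : (ℕ × List ℕ) × ℕ =>
      lq (fun i => ent x.1.2 i ≠ 0) x.2 = x.1.1 ∧ x.2 ≤ x.1.1 :=
    cp_and hQ (cp_le Computable.snd hk)
  have h1 : Computable fun a : ℕ × List ℕ =>
      lst (fun s => lq (fun i => ent a.2 i ≠ 0) s = a.1 ∧ s ≤ a.1) :=
    cp_lst (Q := fun (a : ℕ × List ℕ) (s : ℕ) =>
      lq (fun i => ent a.2 i ≠ 0) s = a.1 ∧ s ≤ a.1) hQ2 Computable.fst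
      (fun a h => by obtain ⟨n, hn⟩ := h; exact ⟨n, hn.2, hn⟩)
  have hP : ComputablePred fun a : ℕ × List ℕ =>
      ∃ s < a.1 + 1, lq (fun i => ent a.2 i ≠ 0) s = a.1 :=
    cp_bex (p := fun (a : ℕ × List ℕ) (s : ℕ) => lq (fun i => ent a.2 i ≠ 0) s = a.1) hQ
      (Computable.succ.comp Computable.fst)
  have h2 : Computable fun a : ℕ × List ℕ =>
      T[(lst (fun s => lq (fun i => ent a.2 i ≠ 0) s = a.1 ∧ s ≤ a.1)) % T.length]? := by
    have h3 : Primrec fun n : ℕ => T[n % T.length]? :=
      (Primrec.list_getElem?₁ T).comp (Primrec.nat_mod.comp Primrec.id (Primrec.const T.length))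
    exact h3.to_comp.comp h1
  refine (cp_ite hP h2 (Computable.const none)).of_eq fun a => ?_
  unfold typ
  by_cases hp : ∃ s ≤ a.1, lq (fun i => ent a.2 i ≠ 0) s = a.1
  · have hp' : ∃ s < a.1 + 1, lq (fun i => ent a.2 i ≠ 0) s = a.1 := by
      obtain ⟨s, hs, h⟩ := hp
      exact ⟨s, Nat.lt_succ_of_le hs, h⟩
    rw [if_pos hp, if_pos hp']
    have hl : lst (fun s => lq (fun i => ent a.2 i ≠ 0) s = a.1 ∧ s ≤ a.1) =
        lst (fun s => lq (fun i => ent a.2 i ≠ 0) s = a.1) := by
      obtain ⟨s, hs, h⟩ := hp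
      refine lst_unique ⟨lst_spec (Q := fun s => lq (fun i => ent a.2 i ≠ 0) s = a.1) ⟨s, h⟩,
        (lst_le (Q := fun s => lq (fun i => ent a.2 i ≠ 0) s = a.1) h).trans hs⟩ ?_
      rintro m ⟨hm, -⟩
      exact lst_le (Q := fun s => lq (fun i => ent a.2 i ≠ 0) s = a.1) hm
    rw [hl]
  · have hp' : ¬ ∃ s < a.1 + 1, lq (fun i => ent a.2 i ≠ 0) s = a.1 := by
      rintro ⟨s, hs, h⟩
      exact hp ⟨s, Nat.lt_succ_iff.1 hs, h⟩
    rw [if_neg hp, if_neg hp']

theorem CM2_alT {α : Type} [Primcodable α] (m : ℕ) {o : α → Option (ℕ × ℕ × ℕ)} {l c : α → ℕ}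
    (ho : Computable o) (hl : Computable l) (hc : Computable c) :
    ComputablePred fun x => alT m (o x) (l x) (c x) := by
  have hm : ∀ f : ℕ × ℕ × ℕ → ℕ, Computable f → Computable fun x => (o x).map f := by
    intro f hf
    exact Computable.option_map ho (g := fun _ b => f b) (hf.comp Computable.snd)
  have f1 : Computable fun a : ℕ × ℕ × ℕ => a.2.1 := Computable.fst.comp Computable.snd
  have f2 : Computable fun a : ℕ × ℕ × ℕ => a.2.2 := Computable.snd.comp Computable.snd
  have f3 : Computable fun a : ℕ × ℕ × ℕ => 4 + a.1 := by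
    have : Primrec fun a : ℕ × ℕ × ℕ => 4 + a.1 :=
      Primrec.nat_add.comp (Primrec.const 4) Primrec.fst
    exact this.to_comp
  have heq : ∀ f : ℕ × ℕ × ℕ → ℕ, Computable f → ComputablePred fun x => ∃ a, o x = some a ∧ l x = f a := by
    intro f hf
    refine (cp_eq (hm f hf) (Computable.option_some.comp hl)).of_eq fun x => ?_
    cases h : o x with
    | none => simp
    | some a =>
      simp only [Option.map_some, Option.some.injEq]
      constructor
      · intro h'
        exact ⟨a, rfl, h'.symm⟩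
      · rintro ⟨b, hb, h'⟩
        rw [hb, h']
  have hlt : ∀ f : ℕ × ℕ × ℕ → ℕ, Computable f → ComputablePred fun x => ∃ a, o x = some a ∧ l x < f a := by
    intro f hf
    refine (cp_lt hl (Computable.option_getD (hm f hf) (Computable.const 0))).of_eq fun x => ?_
    cases h : o x with
    | none => simp
    | some a =>
      simp only [Option.map_some, Option.getD_some, Option.some.injEq]
      constructor
      · intro h'
        exact ⟨a, rfl, h'⟩
      · rintro ⟨b, hb, h'⟩
        rw [hb]
        exact h'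
  have hne : ComputablePred fun x => ∀ a, o x = some a → c x ≠ 4 + a.1 := by
    refine (cp_not (cp_eq (hm _ f3) (Computable.option_some.comp hc))).of_eq fun x => ?_
    cases h : o x with
    | none => simp
    | some a =>
      simp only [Option.map_some, Option.some.injEq]
      constructor
      · intro h' b hb he
        exact h' (by rw [hb, he])
      · intro h' he
        exact h' a rfl he.symm
  have hl1 : Computable fun x => l x + 1 := Computable.succ.comp hl
  have hk : ∀ n : ℕ, ComputablePred fun x => c x = n := fun n => cp_eq hc (Computable.const n)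
  have hm1 : ComputablePred fun x => l x + 1 < m := cp_lt hl1 (Computable.const m)
  have hm2 : ComputablePred fun x => l x + 1 = m := cp_eq hl1 (Computable.const m)
  unfold alT
  refine cp_or (cp_and (hk 0) (cp_and hm1 (heq _ f1))) (cp_or (cp_and (hk 1) (hlt _ f1))
    (cp_or (cp_and (hk 2) (cp_and hm1 (heq _ f2))) (cp_or (cp_and (hk 3) (hlt _ f2))
      (cp_and (cp_le (Computable.const 4) hc) (cp_and hm2 hne)))))

theorem CM2_row (hLQM : LQM_stmt) : CM2_stmt := by
  intro X _
  exact CM2_alT X.m (o := fun x : (ℕ × List ℕ) × ℕ × ℕ => typ X.T (fun i => ent x.1.2 i ≠ 0) x.1.1)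
    (l := fun x => x.2.1) (c := fun x => x.2.2)
    ((CM2_typ hLQM X.T).comp Computable.fst) (Computable.fst.comp Computable.snd)
    (Computable.snd.comp Computable.snd)

end

end S5
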